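import Pool.Agent.TH682.HX.Defs
import Pool.Agent.TH682.GD.Thm
import Pool.Agent.TH682.VC.Excl
import Pool.Agent.TH682.EL.Diag

/-!
# `NEXP = coNEXP`: the language of the lengths of sequences
-/

set_option autoImplicit false

namespace Pool.Agent.TH682.HX

open Pool.Agent.NPC Pool.Agent.H579R2.Spt Pool.Agent.TH682.GD
open Pool.Agent.TH684.EX (poly_of_polyTime)
open Pool.Agent.TH682.VC (PB)
open Pool.Agent.TH682.EL (length_pair)
open Pool.Agent.H660R2.NX (InNEXP)

/-! ### Bounds -/

/-- Functions bounded by a quasi-polynomial. -/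
def QB (F : ℕ → ℕ) : Prop := ∃ p : Polynomial ℕ, ∀ n, F n ≤ 2 ^ p.eval n.size

theorem QB.const (c : ℕ) : QB (fun _ => c) :=
  ⟨Polynomial.C c, fun n => by rw [Polynomial.eval_C]; exact Nat.lt_two_pow_self.le⟩

theorem QB.id : QB (fun n => n) :=
  ⟨Polynomial.X, fun n => by rw [Polynomial.eval_X]; exact (Nat.lt_size_self n).le⟩

theorem QB.add {F G : ℕ → ℕ} (hF : QB F) (hG : QB G) : QB (fun n => F n + G n) := by
  obtain ⟨p, hp⟩ := hF
  obtain ⟨q, hq⟩ := hG
  refine ⟨p + q + 1, fun n => ?_⟩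
  simp only [Polynomial.eval_add, Polynomial.eval_one]
  have h1 := hp n
  have h2 := hq n
  have h3 : 2 ^ p.eval n.size ≤ 2 ^ (p.eval n.size + q.eval n.size) :=
    Nat.pow_le_pow_right (by norm_num) (by omega)
  have h4 : 2 ^ q.eval n.size ≤ 2 ^ (p.eval n.size + q.eval n.size) :=
    Nat.pow_le_pow_right (by norm_num) (by omega)
  rw [pow_succ]
  omega

theorem QB.mul {F G : ℕ → ℕ} (hF : QB F) (hG : QB G) : QB (fun n => F n * G n) := by
  obtain ⟨p, hp⟩ := hF
  obtain ⟨q, hq⟩ := hG
  refine ⟨p + q, fun n => ?_⟩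
  rw [Polynomial.eval_add, pow_add]
  exact Nat.mul_le_mul (hp n) (hq n)

theorem QB.le {F G : ℕ → ℕ} (hG : QB G) (h : ∀ n, F n ≤ G n) : QB F := by
  obtain ⟨q, hq⟩ := hG
  exact ⟨q, fun n => (h n).trans (hq n)⟩

theorem QB.eval {F : ℕ → ℕ} (hF : QB F) (r : Polynomial ℕ) : QB (fun n => r.eval (F n)) := by
  induction r using Polynomial.induction_on' with
  | add p q hp hq => exact (hp.add hq).le fun n => by rw [Polynomial.eval_add]
  | monomial k a =>
    have h1 : QB (fun n => F n ^ k) := by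
      induction k with
      | zero => exact (QB.const 1).le fun n => by simp
      | succ k ih => exact (ih.mul hF).le fun n => by rw [pow_succ]
    exact ((QB.const a).mul h1).le fun n => by rw [Polynomial.eval_monomial]

/-- Exponentials of polynomials in the size. -/
theorem QB.exp {F : ℕ → ℕ} (hF : QB F) (r : Polynomial ℕ) : QB (fun n => 2 ^ r.eval (F n).size) := by
  obtain ⟨p, hp⟩ := hF
  refine ⟨r.comp (p + 1), fun n => Nat.pow_le_pow_right (by norm_num) ?_⟩
  rw [Polynomial.eval_comp]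
  refine eval_mono r ?_
  rw [Polynomial.eval_add, Polynomial.eval_one]
  refine (Nat.size_le_size (hp n)).trans ?_
  rw [Nat.size_pow]

theorem QB.qp (c : ℕ) : QB (HX.qp c) :=
  ⟨Polynomial.X ^ c + Polynomial.C c, fun n => by
    simp only [Polynomial.eval_add, Polynomial.eval_pow, Polynomial.eval_X, Polynomial.eval_C]
    exact le_rfl⟩

theorem QB.bound {F : ℕ → ℕ} (hF : QB F) : ∃ c, ∀ n, F n ≤ HX.qp c n := by
  obtain ⟨p, hp⟩ := hF
  obtain ⟨c, hc⟩ := exists_pow_add_bound p
  exact ⟨c, fun n => (hp n).trans (Nat.pow_le_pow_right (by norm_num) (hc _))⟩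

variable {α : Type} [TEnc α]

theorem two_pow_poly {e : α → ℕ} (he : UPoly e) : Poly (fun a => 2 ^ e a) := by
  have h1 : Poly (fun a => valB (List.replicate (e a) false ++ [true])) := by
    refine NPC.Poly.valBits (NPC.Poly.append ?_ (NPC.Poly.const [true]))
    exact (NPC.Poly.map (l := fun x => List.replicate (e x) ()) (F := fun _ _ => false) he
      (NPC.Poly.const false)).congr fun x => by simp
  refine h1.congr fun a => ?_
  rw [valB_append, Pool.Agent.TH682.EL.valB_zeros, List.length_replicate]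
  simp

theorem qp_poly (c : ℕ) {n : α → ℕ} (hn : Poly n) : Poly (fun a => qp c (n a)) := by
  have h1 : UPoly (fun a => (n a).size) :=
    (UPoly.length (NPC.Poly.natBits hn)).congr fun a => by
      show List.replicate ((n a).bits.length) () = List.replicate ((n a).size) ()
      rw [Nat.size_eq_bits_len]
  have h2 := two_pow_poly (h1.eval (Polynomial.X ^ c + Polynomial.C c))
  refine h2.congr fun a => ?_
  simp only [Polynomial.eval_add, Polynomial.eval_pow, Polynomial.eval_X, Polynomial.eval_C]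
  rfl

/-! ### Sequences -/

/-- The permutation of a string. -/
def fa (f : List Bool → List ℕ) (pd : List Bool) (a : ℕ) (x : List Bool) : List ℕ :=
  f (pairBits (bits (x, a)) pd)

/-- The padding. -/
def pq (c n : ℕ) : List Bool := List.replicate (qp c n) true

/-- There is a sequence of `k` members of length `n` with `k` insertions. -/
def Seq (f : List Bool → List ℕ) (c : ℕ) (A : Set (List Bool)) (q : ℕ × (ℕ × ℕ)) : Prop :=
  ∃ xs : List (List Bool), xs.length = q.2.2 ∧ (∀ x ∈ xs, x.length = q.1 ∧ x ∈ A) ∧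
    (tbl [] (xs.map (fa f (pq c q.1) q.2.1))).length = q.2.2

/-- Certificates: the padding, and members with witnesses. -/
abbrev Crt := List Bool × List (List Bool × List Bool)

/-- The check of a certificate. -/
def ck (f : List Bool → List ℕ) (c : ℕ) (V : List Bool → List Bool) (d : ℕ)
    (r : (ℕ × ℕ) × Crt) : Bool :=
  (r.2.1.all id && decide (r.2.1.length = qp c r.1.1)) &&
  (r.2.2.all (fun q => decide (q.1.length = r.1.1) && (decide (q.2.length ≤ qp d q.1.length) &&
    decide (V (pairBits q.1 q.2) = [true]))) &&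
      decide ((tbl [] (r.2.2.map (fun q => fa f r.2.1 r.1.2 q.1))).length = r.2.2.length))

theorem ck_poly {f : List Bool → List ℕ} {V : List Bool → List Bool} (c d : ℕ)
    (hf : Poly f) (hV : Poly V) : Poly (ck f c V d) := by
  have e2 : Poly (fun r : (ℕ × ℕ) × Crt => r.2.2) := NPC.Poly.snd (NPC.Poly.snd NPC.Poly.id)
  have e3 : Poly (fun r : (ℕ × ℕ) × Crt => r.2.1) := NPC.Poly.fst (NPC.Poly.snd NPC.Poly.id)
  have e4 : Poly (fun r : (ℕ × ℕ) × Crt => r.1.1) := NPC.Poly.fst (NPC.Poly.fst NPC.Poly.id)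
  have e5 : Poly (fun r : (ℕ × ℕ) × Crt => r.1.2) := NPC.Poly.snd (NPC.Poly.fst NPC.Poly.id)
  refine NPC.Poly.and (NPC.Poly.and ?_ (NPC.Poly.decide_eq (NPC.Poly.length e3) (qp_poly c e4)))
    (NPC.Poly.and ?_ ?_)
  · exact NPC.Poly.all (l := fun r : (ℕ × ℕ) × Crt => r.2.1) (p := fun _ b => b) e3
      (NPC.Poly.snd NPC.Poly.id)
  · refine NPC.Poly.all (l := fun r : (ℕ × ℕ) × Crt => r.2.2)
      (p := fun r q => decide (q.1.length = r.1.1) && (decide (q.2.length ≤ qp d q.1.length) &&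
        decide (V (pairBits q.1 q.2) = [true]))) e2 ?_
    have a1 : Poly (fun s : ((ℕ × ℕ) × Crt) × (List Bool × List Bool) => s.2.1) :=
      NPC.Poly.fst (NPC.Poly.snd NPC.Poly.id)
    have a2 : Poly (fun s : ((ℕ × ℕ) × Crt) × (List Bool × List Bool) => s.2.2) :=
      NPC.Poly.snd (NPC.Poly.snd NPC.Poly.id)
    have a3 : Poly (fun s : ((ℕ × ℕ) × Crt) × (List Bool × List Bool) => s.1.1.1) :=
      NPC.Poly.fst (NPC.Poly.fst (NPC.Poly.fst NPC.Poly.id))
    exact NPC.Poly.and (NPC.Poly.decide_eq (NPC.Poly.length a1) a3)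
      (NPC.Poly.and (NPC.Poly.decide_le (NPC.Poly.length a2) (qp_poly d (NPC.Poly.length a1)))
        (NPC.Poly.decide_eq (hV.comp (Pool.Agent.H622R2.poly_pairBits a1 a2)) (NPC.Poly.const _)))
  · refine NPC.Poly.decide_eq (NPC.Poly.length (tbl_poly ?_)) (NPC.Poly.length e2)
    refine NPC.Poly.map (l := fun r : (ℕ × ℕ) × Crt => r.2.2)
      (F := fun r q => fa f r.2.1 r.1.2 q.1) e2 ?_
    exact hf.comp (Pool.Agent.H622R2.poly_pairBits (bits_poly.comp (NPC.Poly.pair
      (NPC.Poly.fst (NPC.Poly.snd NPC.Poly.id)) (e5.comp (NPC.Poly.fst NPC.Poly.id))))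
      (e3.comp (NPC.Poly.fst NPC.Poly.id)))

theorem replicate_of_all {y : List Bool} (h : y.all id = true) :
    y = List.replicate y.length true := by
  rw [List.eq_replicate_iff]
  refine ⟨rfl, fun b hb => ?_⟩
  rw [List.all_eq_true] at h
  exact h b hb

theorem all_pq (c n : ℕ) : (pq c n).all id = true := by
  rw [List.all_eq_true]
  intro b hb
  exact List.eq_of_mem_replicate hb

/-- From a checked certificate to a sequence. -/
theorem seq_of_ck {f : List Bool → List ℕ} {V : List Bool → List Bool} {c d : ℕ}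
    {A : Set (List Bool)}
    (hVA : ∀ x, x ∈ A ↔ ∃ w : List Bool, w.length ≤ qp d x.length ∧ V (pairBits x w) = [true])
    {n a : ℕ} {ws : Crt} (h : ck f c V d ((n, a), ws) = true) : ws.1 = pq c n ∧
    (∀ x ∈ ws.2.map Prod.fst, x.length = n ∧ x ∈ A) ∧
      (tbl [] ((ws.2.map Prod.fst).map (fa f (pq c n) a))).length = ws.2.length := by
  unfold ck at h
  simp only [Bool.and_eq_true, List.all_eq_true, decide_eq_true_eq] at h
  have h0 : ws.1 = pq c n := by
    have := replicate_of_all (y := ws.1) (by rw [List.all_eq_true]; exact h.1.1)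
    rw [this, h.1.2]
    rfl
  refine ⟨h0, fun x hx => ?_, ?_⟩
  · obtain ⟨q, hq, rfl⟩ := List.mem_map.1 hx
    obtain ⟨h1, h2, h3⟩ := h.2.1 q hq
    exact ⟨h1, (hVA _).2 ⟨q.2, h2, h3⟩⟩
  · rw [List.map_map, ← h0]
    exact h.2.2

/-- From a sequence to a certificate. -/
theorem ck_of_seq {f : List Bool → List ℕ} {V : List Bool → List Bool} {c d : ℕ}
    {A : Set (List Bool)}
    (hVA : ∀ x, x ∈ A ↔ ∃ w : List Bool, w.length ≤ qp d x.length ∧ V (pairBits x w) = [true])
    {n a k : ℕ} {xs : List (List Bool)} (h1 : xs.length = k)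
    (h2 : ∀ x ∈ xs, x.length = n ∧ x ∈ A)
    (h3 : (tbl [] (xs.map (fa f (pq c n) a))).length = k) :
    ∃ ws : Crt, ws.1 = pq c n ∧ ws.2.length = k ∧ ws.2.map Prod.fst = xs ∧
      ck f c V d ((n, a), ws) = true ∧
      sz ws ≤ (4 * qp c n + 1) + (k * (4 * n + 4 * qp d n + 4) + 1) + 1 := by
  classical
  choose! W hW using fun x (hx : x ∈ xs) => (hVA x).1 (h2 x hx).2
  refine ⟨(pq c n, xs.map (fun x => (x, W x))), rfl, by simpa using h1, ?_, ?_, ?_⟩
  · rw [List.map_map]
    exact (List.map_congr_left fun x _ => rfl).trans (List.map_id xs)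
  · unfold ck
    rw [Bool.and_eq_true, Bool.and_eq_true, Bool.and_eq_true]
    refine ⟨⟨all_pq c n, ?_⟩, ?_, ?_⟩
    · rw [decide_eq_true_eq]
      exact List.length_replicate
    · rw [List.all_eq_true]
      intro q hq
      obtain ⟨x, hx, rfl⟩ := List.mem_map.1 hq
      simp only [Bool.and_eq_true, decide_eq_true_eq]
      exact ⟨(h2 x hx).1, (hW x hx).1, (hW x hx).2⟩
    · rw [decide_eq_true_eq, List.map_map, List.length_map, h1, ← h3]
      rfl
  · rw [sz_pair]
    have h4 := sz_le_length_mul (xs.map (fun x => (x, W x))) (4 * n + 4 * qp d n + 3)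
      fun q hq => by
        obtain ⟨x, hx, rfl⟩ := List.mem_map.1 hq
        rw [sz_pair]
        have h5 := sz_listBool_le x
        have h6 := sz_listBool_le (W x)
        have h7 := (hW x hx).1
        rw [(h2 x hx).1] at h5 h7
        omega
    rw [List.length_map, h1] at h4
    have h5 := sz_listBool_le (pq c n)
    rw [pq, List.length_replicate] at h5
    have h6 : sz (pq c n) ≤ 4 * qp c n + 1 := h5
    rw [show 4 * n + 4 * qp d n + 3 + 1 = 4 * n + 4 * qp d n + 4 from rfl] at h4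
    show sz (pq c n) + sz (xs.map (fun x => (x, W x))) + 1 ≤ _
    omega

/-- The language of the lengths of sequences is in `NEXP`. -/
theorem seq_inNEXP {f : List Bool → List ℕ} (c : ℕ) {A : Set (List Bool)} (hf : Poly f)
    (hA : InNQP A) : InNEXP (lang (Seq f c A)) := by
  obtain ⟨V, d, hV, hVA⟩ := hA
  have hVp : Poly V := PIso.poly_iff.2 hV
  set D : List Bool × List Bool → Bool := fun r =>
    decide (bits ((unbits (ℕ × (ℕ × ℕ)) r.1).getD (0, (0, 0))) = r.1) &&
      (decide (((unbits Crt r.2).getD ([], [])).2.length =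
        ((unbits (ℕ × (ℕ × ℕ)) r.1).getD (0, (0, 0))).2.2) &&
      ck f c V d ((((unbits (ℕ × (ℕ × ℕ)) r.1).getD (0, (0, 0))).1,
        ((unbits (ℕ × (ℕ × ℕ)) r.1).getD (0, (0, 0))).2.1), (unbits Crt r.2).getD ([], []))) with hD
  have hDp : Poly D := by
    have e1 : Poly (fun r : List Bool × List Bool => r.1) := NPC.Poly.fst NPC.Poly.id
    have e2 : Poly (fun r : List Bool × List Bool => r.2) := NPC.Poly.snd NPC.Poly.id
    have d0 : Poly (fun r : List Bool × List Bool =>
        (unbits (ℕ × (ℕ × ℕ)) r.1).getD (0, (0, 0))) :=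
      NPC.Poly.optGetD (poly_unbits.comp e1) (NPC.Poly.const _)
    have d1 : Poly (fun r : List Bool × List Bool => (unbits Crt r.2).getD ([], [])) :=
      NPC.Poly.optGetD (poly_unbits.comp e2) (NPC.Poly.const _)
    have d2 := NPC.Poly.fst d0
    have d3 := NPC.Poly.snd d0
    have d4 := NPC.Poly.fst d3
    have d5 := NPC.Poly.snd d3
    exact NPC.Poly.and (NPC.Poly.decide_eq (bits_poly.comp d0) e1) (NPC.Poly.and
      (NPC.Poly.decide_eq (NPC.Poly.length (NPC.Poly.snd d1)) d5)
      ((ck_poly c d hf hVp).comp (NPC.Poly.pair (NPC.Poly.pair d2 d4) d1)))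
  -- the bound
  obtain ⟨P, hP⟩ : ∃ P : Polynomial ℕ, ∀ s n k : ℕ, n.size ≤ s → k.size ≤ s →
      (4 * qp c n + 1) + (k * (4 * n + 4 * qp d n + 4) + 1) + 1 ≤ 2 ^ P.eval s := by
    refine ⟨Polynomial.X ^ c + Polynomial.C c + (Polynomial.X + (Polynomial.X ^ d +
      Polynomial.C d)) + Polynomial.X + 8, fun s n k hn hk => ?_⟩
    simp only [Polynomial.eval_add, Polynomial.eval_pow, Polynomial.eval_X, Polynomial.eval_C,
      Polynomial.eval_ofNat]
    have h1 : n ≤ 2 ^ s := (Nat.lt_size_self n).le.trans (Nat.pow_le_pow_right (by norm_num) hn)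
    have h2 : k ≤ 2 ^ s := (Nat.lt_size_self k).le.trans (Nat.pow_le_pow_right (by norm_num) hk)
    have h3 : qp c n ≤ 2 ^ (s ^ c + c) :=
      Nat.pow_le_pow_right (by norm_num) (Nat.add_le_add_right (Nat.pow_le_pow_left hn c) c)
    have h4 : qp d n ≤ 2 ^ (s ^ d + d) :=
      Nat.pow_le_pow_right (by norm_num) (Nat.add_le_add_right (Nat.pow_le_pow_left hn d) d)
    have h5 : 2 ^ (s ^ c + c + (s + (s ^ d + d)) + s + 8) =
        256 * (2 ^ (s ^ c + c) * (2 ^ s * 2 ^ (s ^ d + d)) * 2 ^ s) := by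
      rw [pow_add, pow_add, pow_add, pow_add]
      ring
    rw [h5]
    generalize 2 ^ (s ^ c + c) = X at *
    have hX : 1 ≤ X ∨ X = 0 := by omega
    have hs : 1 ≤ 2 ^ s := Nat.one_le_two_pow
    have hd : 1 ≤ 2 ^ (s ^ d + d) := Nat.one_le_two_pow
    generalize 2 ^ (s ^ d + d) = Y at *
    generalize 2 ^ s = S at *
    have hX : 1 ≤ X := by
      have : 1 ≤ qp c n := Nat.one_le_two_pow
      omega
    have k1 : k * (4 * n + 4 * qp d n + 4) ≤ S * (4 * S + 4 * Y + 4) :=
      Nat.mul_le_mul h2 (by omega)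
    have k2 : S * (4 * S + 4 * Y + 4) ≤ 12 * (S * Y * S) := by
      have a1 : S * S ≤ S * Y * S := by
        calc S * S = S * 1 * S := by ring
          _ ≤ S * Y * S := Nat.mul_le_mul_right _ (Nat.mul_le_mul_left _ hd)
      have a2 : S * Y ≤ S * Y * S := Nat.le_mul_of_pos_right _ hs
      have a3 : S ≤ S * Y * S := (Nat.le_mul_of_pos_right _ hd).trans a2
      have a4 : S * (4 * S + 4 * Y + 4) = 4 * (S * S) + 4 * (S * Y) + 4 * S := by ring
      omega
    have k3 : S * Y * S ≤ X * (S * Y) * S := by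
      calc S * Y * S = 1 * (S * Y) * S := by ring
        _ ≤ X * (S * Y) * S := Nat.mul_le_mul_right _ (Nat.mul_le_mul_right _ hX)
    have k4 : X ≤ X * (S * Y) * S := by
      have : 1 ≤ S * Y := Nat.mul_pos hs hd
      exact (Nat.le_mul_of_pos_right _ this).trans (Nat.le_mul_of_pos_right _ hs)
    omega
  refine ⟨fun z => [D (unpair z)], P, polyTime_of_poly (hDp.comp poly_unpair), fun z => ?_⟩
  simp only [unpair_pairBits, List.cons.injEq, and_true]
  constructor
  · rintro ⟨⟨n, a, k⟩, hq, xs, h1, h2, h3⟩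
    simp only at h1 h2 h3
    subst hq
    obtain ⟨ws, _, h4, _, h6, h7⟩ := ck_of_seq (f := f) (V := V) hVA h1 h2 h3
    refine ⟨bits ws, ?_, ?_⟩
    · rw [bits_length, bits_length]
      have hs2 : sz (n, a, k) = sz n + (sz a + sz k + 1) + 1 := by
        rw [sz_pair, sz_pair]
      have h8 := size_le_sz n
      have h9 := size_le_sz k
      exact h7.trans (hP _ n k (by omega) (by omega))
    · simp only [hD, unbits_bits, Option.getD_some, Bool.and_eq_true, decide_eq_true_eq]
      exact ⟨trivial, h4, h6⟩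
  · rintro ⟨w, _, h⟩
    simp only [hD, Bool.and_eq_true, decide_eq_true_eq] at h
    obtain ⟨h1, h2, h3⟩ := h
    obtain ⟨_, h4, h5⟩ := seq_of_ck hVA h3
    refine ⟨_, h1, ((unbits Crt w).getD ([], [])).2.map Prod.fst, ?_, h4, ?_⟩
    · rw [List.length_map]
      exact h2
    · rw [h5]
      exact h2

end Pool.Agent.TH682.HX
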