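import Pool.Agent.TH682.HX.Up

/-!
# Certificates of nonmembership from `NEXP = coNEXP`
-/

set_option autoImplicit false

namespace Pool.Agent.TH682.HX

open Pool.Agent.NPC Pool.Agent.H579R2.Spt Pool.Agent.TH682.GD
open Pool.Agent.TH684.EX (poly_of_polyTime)
open Pool.Agent.TH682.EL (length_pair)
open Pool.Agent.H660R2.NX (InNEXP)

/-- Certificates of nonmembership. -/
abbrev Cer := Crt × (ℕ × List Bool)

/-- Decoding of a certificate. -/
def dce (w : List Bool) : Cer := (unbits Cer w).getD (([], []), (0, []))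

theorem dce_bits (q : Cer) : dce (bits q) = q := by
  rw [dce, unbits_bits]
  rfl

theorem dce_poly : Poly dce := NPC.Poly.optGetD poly_unbits (NPC.Poly.const _)

/-- The input of the complementary exponential language. -/
def inq (x : List Bool) (q : Cer) : List Bool := bits (x.length, (q.2.1, q.1.2.length + 1))

/-- The check of a certificate of nonmembership. -/
def cv (f : List Bool → List ℕ) (c : ℕ) (V W : List Bool → List Bool) (d : ℕ) (r : Polynomial ℕ)
    (x : List Bool) (q : Cer) : Bool :=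
  ck f c V d ((x.length, q.2.1), q.1) &&
    (decide (W (pairBits (inq x q) q.2.2) = [true]) &&
      (decide ((q.2.2.length - 1).bits.length ≤ r.eval (inq x q).length) &&
        decide ((tbl [] (q.1.2.map (fun s => fa f q.1.1 q.2.1 s.1) ++
          [fa f q.1.1 q.2.1 x])).length = q.1.2.length + 1)))

theorem cv_poly {f : List Bool → List ℕ} {V W : List Bool → List Bool} (c d : ℕ)
    (r : Polynomial ℕ) (hf : Poly f) (hV : Poly V) (hW : Poly W) :
    Poly (fun t : List Bool × Cer => cv f c V W d r t.1 t.2) := by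
  have e1 : Poly (fun r : List Bool × Cer => r.1) := NPC.Poly.fst NPC.Poly.id
  have e2 : Poly (fun r : List Bool × Cer => r.2) := NPC.Poly.snd NPC.Poly.id
  have e3 := NPC.Poly.fst e2
  have e3' := NPC.Poly.snd e3
  have e3'' := NPC.Poly.fst e3
  have e4 := NPC.Poly.snd e2
  have e5 := NPC.Poly.fst e4
  have e6 := NPC.Poly.snd e4
  have e7 : Poly (fun r : List Bool × Cer => r.2.1.2.length + 1) :=
    ((UPoly.length e3').add (UPoly.const 1)).toPoly
  have e8 : Poly (fun r : List Bool × Cer => inq r.1 r.2) :=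
    bits_poly.comp (NPC.Poly.pair (UPoly.length e1).toPoly (NPC.Poly.pair e5 e7))
  refine NPC.Poly.and ((ck_poly c d hf hV).comp (NPC.Poly.pair (NPC.Poly.pair
    (UPoly.length e1).toPoly e5) e3)) (NPC.Poly.and ?_ (NPC.Poly.and ?_ ?_))
  · exact NPC.Poly.decide_eq (hW.comp (Pool.Agent.H622R2.poly_pairBits e8 e6)) (NPC.Poly.const _)
  · refine NPC.Poly.decide_le (NPC.Poly.length (NPC.Poly.natBits ?_)) ?_
    · exact NPC.Poly.sub (NPC.Poly.length e6) (NPC.Poly.const 1)
    · exact ((UPoly.length e8).eval r).toPoly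
  · refine NPC.Poly.decide_eq (NPC.Poly.length (tbl_poly (NPC.Poly.append ?_ ?_))) e7
    · refine NPC.Poly.map (l := fun r : List Bool × Cer => r.2.1.2)
        (F := fun r q => fa f r.2.1.1 r.2.2.1 q.1) e3' ?_
      exact hf.comp (Pool.Agent.H622R2.poly_pairBits (bits_poly.comp (NPC.Poly.pair
        (NPC.Poly.fst (NPC.Poly.snd NPC.Poly.id)) (e5.comp (NPC.Poly.fst NPC.Poly.id))))
        (e3''.comp (NPC.Poly.fst NPC.Poly.id)))
    · exact NPC.Poly.cons (hf.comp (Pool.Agent.H622R2.poly_pairBits
        (bits_poly.comp (NPC.Poly.pair e1 e5)) e3'')) (NPC.Poly.const [])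

theorem length_bits_le {m k : ℕ} : (m - 1).bits.length ≤ k ↔ m ≤ 2 ^ k := by
  rw [Nat.size_eq_bits_len, Nat.size_le]
  have : 0 < 2 ^ k := Nat.two_pow_pos k
  omega

/-- Soundness. -/
theorem not_mem_of_cv {f : List Bool → List ℕ} {V W : List Bool → List Bool} {c d : ℕ}
    {r : Polynomial ℕ} {A : Set (List Bool)}
    (hVA : ∀ x, x ∈ A ↔ ∃ w : List Bool, w.length ≤ qp d x.length ∧ V (pairBits x w) = [true])
    (hW : ∀ x, x ∈ (lang (Seq f c A))ᶜ ↔
      ∃ w : List Bool, w.length ≤ 2 ^ r.eval x.length ∧ W (pairBits x w) = [true])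
    {x : List Bool} {q : Cer} (h : cv f c V W d r x q = true) : x ∉ A := by
  unfold cv at h
  simp only [Bool.and_eq_true, decide_eq_true_eq, length_bits_le] at h
  obtain ⟨h1, h2, h3, h4⟩ := h
  obtain ⟨k1, k2, k3⟩ := seq_of_ck hVA h1
  intro hx
  have h5 : inq x q ∈ (lang (Seq f c A))ᶜ := (hW _).2 ⟨_, h3, h2⟩
  refine h5 ⟨(x.length, (q.2.1, q.1.2.length + 1)), rfl, q.1.2.map Prod.fst ++ [x], by simp,
    ?_, ?_⟩
  · intro y hy
    rcases List.mem_append.1 hy with hy | hy
    · exact k2 y hy
    · rw [List.mem_singleton] at hy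
      subst hy
      exact ⟨rfl, hx⟩
  · rw [List.map_append, List.map_map, ← k1]
    exact h4

theorem seq_le {f : List Bool → List ℕ} {c : ℕ} {A : Set (List Bool)} {n a N : ℕ}
    {H : Subgroup (Equiv.Perm (Fin N))}
    (hH : ∀ x : List Bool, x.length = n → ∃ σ : Equiv.Perm (Fin N),
      fa f (pq c n) a x = vals σ ∧ (x ∈ A ↔ σ ∈ H)) {xs : List (List Bool)}
    (h2 : ∀ x ∈ xs, x.length = n ∧ x ∈ A) :
    Tab N (tbl [] (xs.map (fa f (pq c n) a))) ∧
      (∀ v ∈ tbl [] (xs.map (fa f (pq c n) a)), InH H v) := by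
  classical
  choose! s hs using fun x (hx : x ∈ xs) => hH x (h2 x hx).1
  have h3 : xs.map (fa f (pq c n) a) = (xs.map s).map vals := by
    rw [List.map_map]
    exact List.map_congr_left fun x hx => (hs x hx).1
  rw [h3]
  obtain ⟨h4, _, h5, _⟩ := tbl_spec (xs.map s) [] (tab_nil N)
  refine ⟨h4, h5 H (by simp) fun σ hσ => ?_⟩
  obtain ⟨x, hx, rfl⟩ := List.mem_map.1 hσ
  exact (hs x hx).2.1 (h2 x hx).2

/-- Completeness. -/
theorem exists_cv {f : List Bool → List ℕ} {V W : List Bool → List Bool} {c d : ℕ}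
    {r : Polynomial ℕ} {A : Set (List Bool)}
    (hVA : ∀ x, x ∈ A ↔ ∃ w : List Bool, w.length ≤ qp d x.length ∧ V (pairBits x w) = [true])
    (hW : ∀ x, x ∈ (lang (Seq f c A))ᶜ ↔
      ∃ w : List Bool, w.length ≤ 2 ^ r.eval x.length ∧ W (pairBits x w) = [true])
    {n a N : ℕ} {H : Subgroup (Equiv.Perm (Fin N))}
    (hH : ∀ x : List Bool, x.length = n → ∃ σ : Equiv.Perm (Fin N),
      fa f (pq c n) a x = vals σ ∧ (x ∈ A ↔ σ ∈ H))
    {x : List Bool} (hx : x.length = n) (hxA : x ∉ A) :
    ∃ (ws : Crt) (u : List Bool), cv f c V W d r x (ws, (a, u)) = true ∧ ws.2.length ≤ N ^ 2 ∧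
      sz ws ≤ (4 * qp c n + 1) + (N ^ 2 * (4 * n + 4 * qp d n + 4) + 1) + 1 ∧
      u.length ≤ 2 ^ r.eval (bits (n, (a, ws.2.length + 1))).length := by
  classical
  set P : ℕ → Prop := fun k => Seq f c A (n, (a, k)) with hP
  have hle : ∀ k, P k → k ≤ N ^ 2 := by
    rintro k ⟨xs, h1, h2, h3⟩
    have h4 := tab_length_le (seq_le hH h2).1
    rw [h3] at h4
    exact h4
  have hP0 : P 0 := ⟨[], rfl, by simp, rfl⟩
  obtain ⟨K, hK, hK'⟩ : ∃ K, P K ∧ ¬ P (K + 1) := by
    by_contra hcon
    push Not at hcon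
    have : ∀ k, P k := fun k => by
      induction k with
      | zero => exact hP0
      | succ k ih => exact hcon k ih
    have := hle _ (this (N ^ 2 + 1))
    omega
  obtain ⟨xs, h1, h2, h3⟩ := hK
  simp only at h1 h2 h3
  obtain ⟨ws, h0, h4, h5, h6, h7⟩ := ck_of_seq (f := f) (V := V) hVA h1 h2 h3
  obtain ⟨u, h8, h9⟩ := (hW (bits (n, (a, K + 1)))).1 (by
    rintro ⟨q, hq, hq'⟩
    rw [bits_injective hq] at hq'
    exact hK' hq')
  have hKN : K ≤ N ^ 2 := hle K ⟨xs, h1, h2, h3⟩
  refine ⟨ws, u, ?_, h4.trans_le hKN, h7.trans ?_, ?_⟩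
  · unfold cv inq
    simp only [Bool.and_eq_true, decide_eq_true_eq, length_bits_le, hx, h4, h0]
    refine ⟨by rw [← hx] at h6 ⊢; exact h6, h9, h8, ?_⟩
    have h10 : ws.2.map (fun s => fa f (pq c n) a s.1) = xs.map (fa f (pq c n) a) := by
      rw [← h5, List.map_map]
      rfl
    rw [h10, tbl_append]
    obtain ⟨h11, h12⟩ := seq_le hH h2
    obtain ⟨σ, h13, h14⟩ := hH x hx
    show (ins (tbl [] (xs.map (fa f (pq c n) a))) (fa f (pq c n) a x)).length = K + 1
    rw [h13]
    obtain ⟨_, h16, _, h17⟩ := ins_spec h11 σ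
    have h18 : (ins (tbl [] (xs.map (fa f (pq c n) a))) (vals σ)).length ≠
        (tbl [] (xs.map (fa f (pq c n) a))).length := fun h => hxA (h14.2 (h17 h H h12))
    have h19 : (ins (tbl [] (xs.map (fa f (pq c n) a))) (vals σ)).length ≤
        (tbl [] (xs.map (fa f (pq c n) a))).length + 1 := by
      unfold GD.ins
      split_ifs <;> simp
    omega
  · have := Nat.mul_le_mul_right (4 * n + 4 * qp d n + 4) hKN
    omega
  · rw [h4]
    exact h8

/-- **If `NEXP` is closed under complement, then so is the class of the sets in nondeterministic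
quasi-polynomial time which reduce to membership in nonuniform permutation groups.** -/
theorem compl_inNQP (hNE : ∀ L : Set (List Bool), InNEXP L → InNEXP Lᶜ) {A : Set (List Bool)}
    (hA : InNQP A) (hG : QGroupMember A) : InNQP Aᶜ := by
  classical
  obtain ⟨f, c, hf, hG⟩ := hG
  have hfp : Poly f := poly_of_polyTime hf
  obtain ⟨W, r, hWt, hW⟩ := hNE _ (seq_inNEXP c hfp hA)
  obtain ⟨V, d, hVt, hVA⟩ := hA
  have hVp : Poly V := PIso.poly_iff.2 hVt
  have hWp : Poly W := PIso.poly_iff.2 hWt
  obtain ⟨pf, hpf⟩ := hfp.sz_le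
  -- the bound of the number of points
  have i0 : QB (fun n => n) := QB.id
  have ic : QB (fun n => qp c n) := QB.qp c
  have id' : QB (fun n => qp d n) := QB.qp d
  set Nb : ℕ → ℕ := fun n => pf.eval (4 * (8 * n + 8 * qp c n + 10 + qp c n)) with hNb
  have hNPB : QB Nb := by
    have h1 : QB (fun n => 4 * (8 * n + 8 * qp c n + 10 + qp c n)) :=
      (QB.const 4).mul (((((QB.const 8).mul i0).add ((QB.const 8).mul ic)).add
        (QB.const 10)).add ic)
    exact h1.eval pf
  have hN2 : QB (fun n => Nb n ^ 2) := (hNPB.eval (Polynomial.X ^ 2)).le fun n => by simp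
  set G : ℕ → ℕ := fun n => n + qp c n + (Nb n ^ 2 + 1) with hGdef
  have hGQ : QB G := (i0.add ic).add (hN2.add (QB.const 1))
  set rr : Polynomial ℕ := r.comp (Polynomial.C 12 * Polynomial.X + 5) with hrr
  set F : ℕ → ℕ := fun n => ((4 * qp c n + 1) + (Nb n ^ 2 * (4 * n + 4 * qp d n + 4) + 1) + 1) +
    ((4 * qp c n + 1) + (4 * 2 ^ rr.eval (G n).size + 1) + 1) + 1 with hF
  have hFQ : QB F := by
    have i1 : QB (fun n => 4 * n + 4 * qp d n + 4) :=
      (((QB.const 4).mul i0).add ((QB.const 4).mul id')).add (QB.const 4)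
    have i2 : QB (fun n => 4 * qp c n + 1) := ((QB.const 4).mul ic).add (QB.const 1)
    have i3 : QB (fun n => 4 * 2 ^ rr.eval (G n).size + 1) :=
      ((QB.const 4).mul (hGQ.exp rr)).add (QB.const 1)
    exact (((i2.add ((hN2.mul i1).add (QB.const 1))).add (QB.const 1)).add
      ((i2.add i3).add (QB.const 1))).add (QB.const 1)
  obtain ⟨q, hq⟩ := hFQ.bound
  refine ⟨fun z => [cv f c V W d r (unpair z).1 (dce (unpair z).2)], q, polyTime_of_poly
    ((cv_poly c d r hfp hVp hWp).comp (NPC.Poly.pair (NPC.Poly.fst poly_unpair)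
      (dce_poly.comp (NPC.Poly.snd poly_unpair)))), fun x => ?_⟩
  simp only [unpair_pairBits, List.cons.injEq, and_true]
  constructor
  · intro hx
    obtain ⟨a, ha, N, H, hH⟩ := hG x.length
    obtain ⟨ws, u, h1, h2, h3, h4⟩ := exists_cv (f := f) (V := V) (W := W) (c := c) (d := d)
      (r := r) hVA hW hH rfl hx
    refine ⟨bits (ws, (a, u)), ?_, ?_⟩
    · refine le_trans ?_ (hq x.length)
      rw [bits_length]
      have hsz : sz (ws, (a, u)) = sz ws + (sz a + sz u + 1) + 1 := by
        rw [sz_pair ws (a, u), sz_pair a u]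
      rw [hsz]
      have ha' : a.size ≤ a := Nat.size_le.2 Nat.lt_two_pow_self
      have ha2 := sz_nat_le a
      -- the number of points
      have hN : N ≤ Nb x.length := by
        obtain ⟨σ, h5, _⟩ := hH x rfl
        have h6 := hpf (pairBits (bits (x, a)) (List.replicate (qp c x.length) true))
        have h7 := length_lt_sz (f (pairBits (bits (x, a)) (List.replicate (qp c x.length) true)))
        rw [h5, vals_length] at h7
        rw [h5] at h6
        refine (h7.le.trans h6).trans (eval_mono pf ?_)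
        have h8 := sz_listBool_le (pairBits (bits (x, a)) (List.replicate (qp c x.length) true))
        rw [length_pair, List.length_replicate, bits_length, sz_pair] at h8
        have h9 := sz_listBool_le x
        omega
      have hN2' : N ^ 2 ≤ Nb x.length ^ 2 := Nat.pow_le_pow_left hN 2
      have h5 : sz ws ≤ (4 * qp c x.length + 1) + (Nb x.length ^ 2 *
          (4 * x.length + 4 * qp d x.length + 4) + 1) + 1 := by
        have := Nat.mul_le_mul_right (4 * x.length + 4 * qp d x.length + 4) hN2'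
        omega
      have h7 : sz u ≤ 4 * 2 ^ rr.eval (G x.length).size + 1 := by
        have h8 := sz_listBool_le u
        have h9 : u.length ≤ 2 ^ rr.eval (G x.length).size := by
          refine h4.trans (Nat.pow_le_pow_right (by norm_num) ?_)
          rw [hrr, Polynomial.eval_comp]
          refine eval_mono r ?_
          rw [bits_length, sz_pair, sz_pair]
          simp only [Polynomial.eval_add, Polynomial.eval_mul, Polynomial.eval_C,
            Polynomial.eval_X, Polynomial.eval_ofNat]
          have k1 := sz_nat_le x.length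
          have k3 := sz_nat_le (ws.2.length + 1)
          have k4 : x.length.size ≤ (G x.length).size :=
            Nat.size_le_size (by simp only [hGdef]; omega)
          have k5 : a.size ≤ (G x.length).size :=
            Nat.size_le_size (by simp only [hGdef]; omega)
          have k6 : (ws.2.length + 1).size ≤ (G x.length).size :=
            Nat.size_le_size (by simp only [hGdef]; omega)
          omega
        omega
      simp only [hF]
      omega
    · rw [dce_bits]
      exact h1
  · rintro ⟨w, _, h⟩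
    exact not_mem_of_cv hVA hW h

end Pool.Agent.TH682.HX
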