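import Pool.Agent.TH682.GD.Blk
import Pool.Agent.NPC.Classes
import Pool.Agent.H660R2.NX.Defs

/-!
# Quasi-polynomial time, and membership in nonuniform permutation groups: definitions

Polynomial time is Mathlib's `Turing.TM2ComputableInPolyTime` (through `Pool.Agent.NPC.PolyTime`).
-/

set_option autoImplicit false

namespace Pool.Agent.TH682.HX

open Pool.Agent.NPC Pool.Agent.TH682.GD

/-- The quasi-polynomial bound `2 ^ ((log n) ^ c + c)`; here `Nat.size n` is the number of binary
digits of `n`. -/
def qp (c n : ℕ) : ℕ := 2 ^ (n.size ^ c + c)

/-- Nondeterministic quasi-polynomial time: certificates of length at most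
`2 ^ ((log n) ^ c + c)`, verifiable in time polynomial in the length of input and certificate. -/
def InNQP (L : Set (List Bool)) : Prop :=
  ∃ (V : List Bool → List Bool) (c : ℕ), PolyTime V ∧
    ∀ x, x ∈ L ↔ ∃ w : List Bool, w.length ≤ qp c x.length ∧ V (pairBits x w) = [true]

/-- The set `A` reduces in quasi-polynomial time to membership in nonuniform permutation groups:
there are `c` and a function `f`, computable in polynomial time on inputs padded to length
`2 ^ ((log n) ^ c + c)`, and, for every `n`, a number `a` (advice), at most
`2 ^ ((log n) ^ c + c)`, a number `N` and a subgroup `H` of the symmetric group on `N` points such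
that for all strings `x` of length `n` the value of `f` at `(x, a)` is a permutation `σ` of the `N`
points (given by the list of its values), and `x ∈ A` if and only if `σ ∈ H`. The group `H` is
arbitrary, and may depend on `n` in any way. -/
def QGroupMember (A : Set (List Bool)) : Prop :=
  ∃ (f : List Bool → List ℕ) (c : ℕ), PolyTime (fun z => bits (f z)) ∧
    ∀ n : ℕ, ∃ a : ℕ, a ≤ qp c n ∧ ∃ (N : ℕ) (H : Subgroup (Equiv.Perm (Fin N))),
      ∀ x : List Bool, x.length = n → ∃ σ : Equiv.Perm (Fin N),
        f (pairBits (bits (x, a)) (List.replicate (qp c n) true)) = vals σ ∧ (x ∈ A ↔ σ ∈ H)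

end Pool.Agent.TH682.HX
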