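import Pool.Agent.TH682.HX.Co
import Pool.Agent.TH682.HS.Down

/-!
# From certificates of nonmembership to `NEXP = coNEXP`
-/

set_option autoImplicit false

namespace Pool.Agent.TH682.HX

open Pool.Agent.NPC Pool.Agent.H579R2.Spt Pool.Agent.TH682.GD
open Pool.Agent.TH682.VC (num str bits_num str_num num_poly str_poly num_lt)
open Pool.Agent.TH682.HS (una mem_una two_pow_le_num)
open Pool.Agent.TH682.EL (length_pair)
open Pool.Agent.H660R2.NX (InNEXP)

theorem size_num (x : List Bool) : (num x).size = x.length + 1 := by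
  rw [← Nat.size_eq_bits_len, bits_num, List.length_append, List.length_singleton]

/-- The verifier of the unary version. -/
def uv (V : List Bool → List Bool) (p : Polynomial ℕ) (r : List Bool × List Bool) : Bool :=
  r.1.all id && (decide (num (str r.1.length) = r.1.length) &&
    (decide ((r.2.length - 1).bits.length ≤ p.eval (str r.1.length).length) &&
      decide (V (pairBits (str r.1.length) r.2) = [true])))

theorem uv_poly {V : List Bool → List Bool} (p : Polynomial ℕ) (hV : Poly V) : Poly (uv V p) := by
  have e1 : Poly (fun r : List Bool × List Bool => r.1) := NPC.Poly.fst NPC.Poly.id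
  have e2 : Poly (fun r : List Bool × List Bool => r.2) := NPC.Poly.snd NPC.Poly.id
  have e3 : Poly (fun r : List Bool × List Bool => str r.1.length) :=
    str_poly.comp (NPC.Poly.length e1)
  refine NPC.Poly.and ?_ (NPC.Poly.and (NPC.Poly.decide_eq (num_poly.comp e3)
    (NPC.Poly.length e1)) (NPC.Poly.and ?_ (NPC.Poly.decide_eq
      (hV.comp (Pool.Agent.H622R2.poly_pairBits e3 e2)) (NPC.Poly.const _))))
  · exact NPC.Poly.all (l := fun r : List Bool × List Bool => r.1) (p := fun _ b => b) e1
      (NPC.Poly.snd NPC.Poly.id)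
  · exact NPC.Poly.decide_le (NPC.Poly.length (NPC.Poly.natBits (NPC.Poly.sub (NPC.Poly.length e2)
        (NPC.Poly.const 1)))) ((UPoly.length e3).eval p).toPoly

theorem una_inNQP {L : Set (List Bool)} (hL : InNEXP L) : InNQP (una L) := by
  obtain ⟨V, p, hV, hVL⟩ := hL
  have hVp : Poly V := PIso.poly_iff.2 hV
  obtain ⟨c, hc⟩ := exists_pow_add_bound p
  refine ⟨fun z => [uv V p (unpair z)], c, polyTime_of_poly ((uv_poly p hVp).comp poly_unpair),
    fun y => ?_⟩
  simp only [unpair_pairBits, List.cons.injEq, and_true]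
  constructor
  · rintro ⟨x, hx, rfl⟩
    obtain ⟨w, h1, h2⟩ := (hVL x).1 hx
    refine ⟨w, ?_, ?_⟩
    · rw [List.length_replicate, qp, size_num]
      refine h1.trans (Nat.pow_le_pow_right (by norm_num) ((hc _).trans ?_))
      exact Nat.add_le_add_right (Nat.pow_le_pow_left (Nat.le_succ _) c) c
    · unfold uv
      simp only [List.length_replicate, str_num, Bool.and_eq_true, decide_eq_true_eq,
        length_bits_le]
      refine ⟨?_, trivial, h1, h2⟩
      rw [List.all_eq_true]
      intro b hb
      exact List.eq_of_mem_replicate hb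
  · rintro ⟨w, _, h⟩
    unfold uv at h
    simp only [Bool.and_eq_true, decide_eq_true_eq, length_bits_le] at h
    obtain ⟨h1, h2, h3, h4⟩ := h
    refine ⟨str y.length, (hVL _).2 ⟨w, h3, h4⟩, ?_⟩
    rw [h2]
    exact replicate_of_all h1

/-- Sets of strings over one letter reduce to membership in groups. -/
theorem una_group (L : Set (List Bool)) : QGroupMember (una L) := by
  classical
  obtain ⟨f, b, hf, h⟩ := HS.una_group L
  have hfp : Poly f := Pool.Agent.TH684.EX.poly_of_polyTime hf
  obtain ⟨c, hc⟩ := ((QB.id.eval (Polynomial.X ^ b + Polynomial.C b))).bound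
  refine ⟨fun z => f (unpair z).1, c, polyTime_bits (hfp.comp (NPC.Poly.fst poly_unpair)),
    fun n => ?_⟩
  obtain ⟨a, ha, N, H, hH⟩ := h n
  have h1 := hc n
  simp only [Polynomial.eval_add, Polynomial.eval_pow, Polynomial.eval_C, Polynomial.eval_X] at h1
  refine ⟨a, ha.trans h1, N, H, fun x hx => ?_⟩
  obtain ⟨σ, h2, h3⟩ := hH x hx
  refine ⟨σ, ?_, h3⟩
  simp only [unpair_pairBits]
  exact h2

/-- From the complement of the unary version. -/
theorem compl_inNEXP {L : Set (List Bool)} (h : InNQP (una L)ᶜ) : InNEXP Lᶜ := by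
  obtain ⟨V, c, hV, hVL⟩ := h
  have hVp : Poly V := PIso.poly_iff.2 hV
  set D : List Bool × List Bool → Bool := fun r =>
    (unpair r.2).1.all id && (decide ((unpair r.2).1.length = num r.1) &&
      (decide ((unpair r.2).2.length ≤ qp c (unpair r.2).1.length) &&
        decide (V (pairBits (unpair r.2).1 (unpair r.2).2) = [true]))) with hD
  have hDp : Poly D := by
    have e1 : Poly (fun r : List Bool × List Bool => r.1) := NPC.Poly.fst NPC.Poly.id
    have e2 : Poly (fun r : List Bool × List Bool => unpair r.2) :=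
      poly_unpair.comp (NPC.Poly.snd NPC.Poly.id)
    have e3 := NPC.Poly.fst e2
    have e4 := NPC.Poly.snd e2
    refine NPC.Poly.and ?_ (NPC.Poly.and (NPC.Poly.decide_eq (NPC.Poly.length e3)
      (num_poly.comp e1)) (NPC.Poly.and (NPC.Poly.decide_le (NPC.Poly.length e4)
        (qp_poly c (NPC.Poly.length e3))) (NPC.Poly.decide_eq
          (hVp.comp (Pool.Agent.H622R2.poly_pairBits e3 e4)) (NPC.Poly.const _))))
    exact NPC.Poly.all (l := fun r : List Bool × List Bool => (unpair r.2).1)
      (p := fun _ b => b) e3 (NPC.Poly.snd NPC.Poly.id)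
  refine ⟨fun z => [D (unpair z)], (Polynomial.X + 3) + ((Polynomial.X + 1) ^ c +
    Polynomial.C c), polyTime_of_poly (hDp.comp poly_unpair), fun x => ?_⟩
  simp only [unpair_pairBits, List.cons.injEq, and_true]
  constructor
  · intro hx
    obtain ⟨w, h1, h2⟩ := (hVL (List.replicate (num x) true)).1 (fun h => hx (mem_una.1 h))
    rw [List.length_replicate] at h1
    refine ⟨pairBits (List.replicate (num x) true) w, ?_, ?_⟩
    · rw [length_pair, List.length_replicate]
      have h3 := (num_lt x).le
      rw [qp, size_num] at h1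
      simp only [Polynomial.eval_add, Polynomial.eval_pow, Polynomial.eval_C, Polynomial.eval_X,
        Polynomial.eval_one, Polynomial.eval_ofNat]
      rw [pow_add 2 (x.length + 3)]
      have h4 : 1 ≤ 2 ^ ((x.length + 1) ^ c + c) := Nat.one_le_two_pow
      have h5 : 2 ^ (x.length + 3) = 4 * 2 ^ (x.length + 1) := by
        rw [show x.length + 3 = (x.length + 1) + 2 from rfl, pow_add]
        ring
      have h6 : 2 ≤ 2 ^ (x.length + 1) := by
        calc 2 = 2 ^ 1 := (pow_one 2).symm
          _ ≤ _ := Nat.pow_le_pow_right (by norm_num) (by omega)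
      rw [h5]
      generalize 2 ^ ((x.length + 1) ^ c + c) = Y at *
      generalize 2 ^ (x.length + 1) = S at *
      nlinarith
    · simp only [hD, unpair_pairBits, Bool.and_eq_true, decide_eq_true_eq, List.length_replicate]
      refine ⟨?_, trivial, h1, h2⟩
      rw [List.all_eq_true]
      intro b hb
      exact List.eq_of_mem_replicate hb
  · rintro ⟨w, _, h⟩
    simp only [hD, Bool.and_eq_true, decide_eq_true_eq] at h
    obtain ⟨h1, h2, h3, h4⟩ := h
    intro hx
    have h5 : (unpair w).1 ∈ (una L)ᶜ := (hVL _).2 ⟨_, h3, h4⟩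
    apply h5
    rw [replicate_of_all h1, h2]
    exact mem_una.2 hx

end Pool.Agent.TH682.HX
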